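import Pool.Agent.X214.S7.Deriv

/-!
# A `G`-manifold with two different singular orbits and positive curvature

Let `G = S¹ × S³`, the pairs `(w, h)` of a unit complex number and a unit quaternion, act on the unit
sphere `S⁷` of `ℍ²` by `(w, h) · (x, y) = (w x h⁻¹, y h⁻¹)`.

* `G` is a compact connected Lie group and the action is smooth and effective.
* There are exactly two non-principal orbits, `{y = 0}` and `{x = 0}`. All other isotropy groups are
  trivial, and the principal orbits have dimension four: the cohomogeneity is three.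
* Both non-principal orbits are singular, that is, their dimension is less than four. They are
  different: the isotropy groups of `(1, 0)` and `(0, 1)` are the circles `{(w, w)}` and `{(w, 1)}`,
  which are not related by any automorphism of the group `G`; in particular they are not conjugate,
  so `S⁷` is not a double.
* The round metrics of `S⁷` are invariant, they have positive sectional curvature, and one of them
  has diameter at most one. So `S⁷` admits metrics of almost nonnegative sectional curvature.

So the answer to Q1 is yes.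
-/

open Bundle Manifold ContDiff Metric
open scoped Quaternion RealInnerProductSpace

set_option autoImplicit false
set_option synthInstance.maxHeartbeats 400000
set_option maxHeartbeats 4000000

namespace Pool.Agent.Results.MP_9877a5_gt.RoundSevenSphere

open Pool.Agent.H821R2 Pool.Agent.X214.S7

section definitions

variable {EG : Type} [NormedAddCommGroup EG] [NormedSpace ℝ EG] {HG : Type} [TopologicalSpace HG]
  (IG : ModelWithCorners ℝ EG HG)
  {EM : Type} [NormedAddCommGroup EM] [NormedSpace ℝ EM] {HM : Type} [TopologicalSpace HM]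
  (IM : ModelWithCorners ℝ EM HM)
  (G : Type) [TopologicalSpace G] [ChartedSpace HG G] [Group G]
  {M : Type} [TopologicalSpace M] [ChartedSpace HM M] [MulAction G M]

/-- The dimension of the orbit of `x`: the rank of the differential at `1` of the map
`g ↦ g • x`. -/
noncomputable def orbitDim (x : M) : ℕ :=
  Module.finrank ℝ (LinearMap.range (mfderiv IG IM (fun g : G => g • x) (1 : G)).toLinearMap)

omit [TopologicalSpace G] [ChartedSpace HG G] [TopologicalSpace M] [ChartedSpace HM M] in
/-- The orbit of `x` is principal: the isotropy group of `x` is conjugate to a subgroup of every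
isotropy group. -/
def Principal (x : M) : Prop :=
  ∀ y : M, ∃ g : G, ∀ h ∈ MulAction.stabilizer G x, g * h * g⁻¹ ∈ MulAction.stabilizer G y

/-- The isotropy groups of `x` and `y` are not related by any automorphism of `G`; in particular
they are not conjugate. -/
def Different (x y : M) : Prop :=
  ∀ φ : G ≃* G, ¬ ∀ h : G, h ∈ MulAction.stabilizer G x ↔ φ h ∈ MulAction.stabilizer G y

variable (M) in
/-- A smooth effective action of the Lie group `G` on the manifold `M` of cohomogeneity at least two
with exactly two non-principal orbits, which are both singular (of smaller dimension than the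
principal orbits) and different. -/
structure TwoDifferentSingularOrbits : Prop where
  smooth : ContMDiff (IG.prod IM) IM ∞ (fun z : G × M => z.1 • z.2)
  effective : ∀ g : G, (∀ x : M, g • x = x) → g = 1
  cohomogeneity : ∀ x : M, Principal G x → orbitDim IG IM G x + 2 ≤ Module.finrank ℝ EM
  orbits : ∃ p q : M, MulAction.orbit G p ≠ MulAction.orbit G q ∧
    (∀ x : M, ¬ Principal G x ↔ x ∈ MulAction.orbit G p ∨ x ∈ MulAction.orbit G q) ∧
    (∀ x : M, Principal G x →
      orbitDim IG IM G p < orbitDim IG IM G x ∧ orbitDim IG IM G q < orbitDim IG IM G x) ∧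
    Different G p q

/-- The Riemannian metric `g` has diameter at most one: any two points are joined by a smooth path
of length at most one. (`length g γ` is the integral over `[0, 1]` of `|γ'|`.) -/
def DiamLeOne {M : Type} [TopologicalSpace M] [ChartedSpace HM M] [IsManifold IM ∞ M]
    (g : ContMDiffRiemannianMetric IM ∞ EM (fun x : M => TangentSpace IM x)) : Prop :=
  ∀ x y : M, ∃ γ : ℝ → M, ContMDiff 𝓘(ℝ, ℝ) IM ∞ γ ∧ γ 0 = x ∧ γ 1 = y ∧ length g γ ≤ 1

/-- `R` is the Riemann curvature tensor of the metric `g`, that is, of its Levi-Civita connection. -/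
def IsCurvature {M : Type} [TopologicalSpace M] [ChartedSpace HM M] [IsManifold IM ∞ M]
    (g : ContMDiffRiemannianMetric IM ∞ EM (fun x : M => TangentSpace IM x))
    (R : CurvField IM M) : Prop :=
  ∃ cov : CovariantDerivative IM EM (TangentSpace IM : M → Type _),
    IsLeviCivita g cov ∧ IsRiemannTensor cov R

variable (M) in
/-- `M` admits almost nonnegative sectional curvature: for every `ε > 0` there is a smooth Riemannian
metric with sectional curvature at least `-ε` and diameter at most one. -/
def AlmostNonneg [IsManifold IM ∞ M] : Prop :=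
  ∀ ε : ℝ, 0 < ε →
    ∃ (g : ContMDiffRiemannianMetric IM ∞ EM (fun x : M => TangentSpace IM x))
      (R : CurvField IM M), IsCurvature IM g R ∧
      (∀ (p : M) (u v : TangentSpace IM p), OrthoPair g p u v → -ε ≤ sec g R p u v) ∧
      DiamLeOne IM g

variable (M) in
/-- `M` admits a smooth Riemannian metric of positive sectional curvature and of diameter at most one
which is invariant under `G`. -/
def InvariantPositive [IsManifold IM ∞ M] : Prop :=
  ∃ (g : ContMDiffRiemannianMetric IM ∞ EM (fun x : M => TangentSpace IM x))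
    (R : CurvField IM M), IsCurvature IM g R ∧
    (∀ (p : M) (u v : TangentSpace IM p), OrthoPair g p u v → 0 < sec g R p u v) ∧
    DiamLeOne IM g ∧
    ∀ (a : G) (p : M) (u v : TangentSpace IM p),
      g.inner (a • p) (mfderiv IM IM (fun y : M => a • y) p u)
        (mfderiv IM IM (fun y : M => a • y) p v) = g.inner p u v

end definitions

theorem principal_iff (x : S7) : Principal G x ↔ (ee (x : W)).1 ≠ 0 ∧ (ee (x : W)).2 ≠ 0 := by
  constructor
  · intro h
    obtain ⟨g, hg⟩ := h rr
    constructor
    · intro h1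
      have h2 : mo ∈ MulAction.stabilizer G x := MulAction.mem_stabilizer_iff.2 (mo_smul h1)
      have h3 := rr_free (MulAction.mem_stabilizer_iff.1 (hg mo h2))
      refine mo_ne ?_
      have h4 : g * mo = g := by rw [mul_inv_eq_one] at h3; exact h3
      exact mul_eq_left.1 h4
    · intro h1
      have h2 : mm ∈ MulAction.stabilizer G x := MulAction.mem_stabilizer_iff.2 (mm_smul h1)
      have h3 := rr_free (MulAction.mem_stabilizer_iff.1 (hg mm h2))
      rw [mm_conj] at h3
      exact mm_ne h3
  · rintro ⟨h1, h2⟩ y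
    refine ⟨1, fun h hh => ?_⟩
    have h3 : h = 1 := free h1 h2 (MulAction.mem_stabilizer_iff.1 hh)
    rw [h3, one_mul, one_mul, inv_one]
    exact one_mem _

theorem mem_stab_pp (g : G) : g ∈ MulAction.stabilizer G pp ↔ (g.2 : ℍ) = ((g.1 : ℂ) : ℍ) := by
  rw [MulAction.mem_stabilizer_iff, smul_eq_iff, pp, ee_mk]
  simp only [mul_one, zero_mul, and_true]
  have e : star (g.2 : ℍ) * (g.2 : ℍ) = 1 := by
    rw [Quaternion.star_mul_self, Quaternion.normSq_eq_norm_mul_self, norm_eq_of_mem_sphere g.2]
    norm_num
  have e' : (g.2 : ℍ) * star (g.2 : ℍ) = 1 := by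
    rw [Quaternion.self_mul_star, Quaternion.normSq_eq_norm_mul_self, norm_eq_of_mem_sphere g.2]
    norm_num
  rw [cc_apply]
  constructor
  · intro h
    have h1 := congrArg (fun z => z * (g.2 : ℍ)) h
    simp only [mul_assoc, e, mul_one, one_mul] at h1
    exact h1.symm
  · intro h
    rw [← h, e']

theorem mem_stab_qq (g : G) : g ∈ MulAction.stabilizer G qq ↔ g.2 = 1 := by
  rw [MulAction.mem_stabilizer_iff, smul_eq_iff, qq, ee_mk]
  simp only [mul_zero, zero_mul, true_and, one_mul]
  constructor
  · intro h
    refine Subtype.ext ?_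
    change (g.2 : ℍ) = 1
    rw [← star_star (g.2 : ℍ), h, star_one]
  · intro h
    rw [h]
    change star (1 : ℍ) = 1
    exact star_one _

theorem different : Different G pp qq := by
  intro φ h
  -- the element `(i, i)` of the isotropy group of `(1, 0)`
  have hI : ‖Complex.I‖ = 1 := by simp
  obtain ⟨a, ha⟩ : ∃ a : G, (a.1 : ℂ) = Complex.I ∧ (a.2 : ℍ) = (Complex.I : ℍ) :=
    ⟨(⟨Complex.I, by rw [mem_sphere_zero_iff_norm]; exact hI⟩,
      ⟨(Complex.I : ℍ), by rw [mem_sphere_zero_iff_norm, ← cc_apply, norm_cc]; exact hI⟩), rfl, rfl⟩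
  have h1 : a ∈ MulAction.stabilizer G pp := by
    rw [mem_stab_pp, ha.1, ha.2]
  have h2 := (mem_stab_qq _).1 ((h a).1 h1)
  -- so `a` is central
  have h3 : ∀ b : G, φ a * φ b = φ b * φ a := fun b => by
    refine Prod.ext (mul_comm _ _) ?_
    change (φ a).2 * (φ b).2 = (φ b).2 * (φ a).2
    rw [h2, one_mul, mul_one]
  have h4 : ∀ b : G, a * b = b * a := fun b => by
    apply φ.injective
    rw [map_mul, map_mul]
    exact h3 b
  -- but it does not commute with `(1, j)`
  obtain ⟨j, j0, j1, j2, j3⟩ : ∃ j : ℍ, j.re = 0 ∧ j.imI = 0 ∧ j.imJ = 1 ∧ j.imK = 0 :=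
    ⟨⟨0, 0, 1, 0⟩, rfl, rfl, rfl, rfl⟩
  have hj : ‖j‖ = 1 := by
    have e : ‖j‖ ^ 2 = 1 := by
      rw [← real_inner_self_eq_norm_sq, Quaternion.inner_self, Quaternion.normSq_def', j0, j1, j2,
        j3]
      norm_num
    nlinarith [norm_nonneg j]
  have h5 := h4 (1, ⟨j, by rw [mem_sphere_zero_iff_norm]; exact hj⟩)
  have h6 : (a.2 : ℍ) * j = j * (a.2 : ℍ) := congrArg (fun g : G => (g.2 : ℍ)) h5
  rw [ha.2] at h6
  have h7 := congrArg (fun q : ℍ => q.imK) h6
  simp only [Quaternion.imK_mul, Quaternion.re_coeComplex, Quaternion.imI_coeComplex,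
    Quaternion.imJ_coeComplex, Quaternion.imK_coeComplex, j0, j1, j2, j3, Complex.I_re,
    Complex.I_im] at h7
  norm_num at h7

/-- `G = S¹ × S³` is a compact connected Lie group and `S⁷` is a compact connected manifold. -/
def Setting : Prop :=
  (CompactSpace G ∧ ConnectedSpace G ∧ LieGroup ((𝓡 1).prod (𝓡 3)) ∞ G) ∧
    CompactSpace S7 ∧ ConnectedSpace S7 ∧ IsManifold (𝓡 7) ∞ S7

/-- The action is `(w, h) · (x, y) = (w x h⁻¹, y h⁻¹)`; here `ee` are the two coordinates of a point
of `ℍ²`. -/
def ActionIs : Prop :=
  ∀ (g : G) (x : S7), ee ((g • x : S7) : W) =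
    (((g.1 : ℂ) : ℍ) * (ee (x : W)).1 * (g.2 : ℍ)⁻¹, (ee (x : W)).2 * (g.2 : ℍ)⁻¹)

/-- The isotropy groups on the principal orbits are trivial and these orbits have dimension four; the
isotropy groups of `pp = (1, 0)` and `qq = (0, 1)` are `{(w, w)}` and `{(w, 1)}`. -/
def IsotropyIs : Prop :=
  (∀ x : S7, Principal G x →
    MulAction.stabilizer G x = ⊥ ∧ orbitDim ((𝓡 1).prod (𝓡 3)) (𝓡 7) G x = 4) ∧
  (∀ g : G, g ∈ MulAction.stabilizer G pp ↔ (g.2 : ℍ) = ((g.1 : ℂ) : ℍ)) ∧
  ∀ g : G, g ∈ MulAction.stabilizer G qq ↔ g.2 = 1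

theorem setting : Setting :=
  ⟨⟨inferInstance, inferInstance, inferInstance⟩, inferInstance, inferInstance, inferInstance⟩

theorem actionIs : ActionIs := by
  intro g x
  rw [ee_smul, cc_apply]
  have e : (g.2 : ℍ)⁻¹ = star (g.2 : ℍ) := coe_inv3 g.2
  rw [e]

theorem isotropyIs : IsotropyIs := by
  refine ⟨?_, mem_stab_pp, mem_stab_qq⟩
  intro x hx
  obtain ⟨h1, h2⟩ := (principal_iff x).1 hx
  refine ⟨?_, rank_four h1 h2⟩
  rw [eq_bot_iff]
  intro g hg
  exact free h1 h2 (MulAction.mem_stabilizer_iff.1 hg)

theorem two : TwoDifferentSingularOrbits ((𝓡 1).prod (𝓡 3)) (𝓡 7) G S7 := by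
  refine ⟨smooth_act, fun g hg => rr_free (hg rr), ?_, pp, qq, ?_, ?_, ?_, different⟩
  · intro x hx
    obtain ⟨h1, h2⟩ := (principal_iff x).1 hx
    have h := rank_four h1 h2
    rw [orbitDim, h, finrank_euclideanSpace_fin]
    norm_num
  · intro h
    have h1 : qq ∈ MulAction.orbit G pp := by
      rw [h]
      exact MulAction.mem_orbit_self _
    rw [mem_orbit_pp, qq, ee_mk] at h1
    exact one_ne_zero h1
  · intro x
    rw [principal_iff, mem_orbit_pp, mem_orbit_qq]
    tauto
  · intro x hx
    obtain ⟨h1, h2⟩ := (principal_iff x).1 hx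
    have h := rank_four h1 h2
    constructor
    · rw [orbitDim, orbitDim, h]
      exact rank_lt ker_pp
    · rw [orbitDim, orbitDim, h]
      exact rank_lt ker_qq

theorem invariantPositive : InvariantPositive (𝓡 7) G S7 := by
  obtain ⟨g, cov, R, k1, k2, k3, k4, k5⟩ := exists_small (n := 7) (V := W)
  refine ⟨g, R, ⟨cov, k1, k2⟩, k4, k5, fun a p u v => ?_⟩
  rw [k3, k3, d_act, d_act, (ambI a).inner_map_map]

theorem almostNonneg : AlmostNonneg (𝓡 7) S7 := by
  intro ε hε
  obtain ⟨g, cov, R, k1, k2, -, k4, k5⟩ := exists_small (n := 7) (V := W)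
  exact ⟨g, R, ⟨cov, k1, k2⟩, fun p u v h => ((neg_neg_of_pos hε).trans (k4 p u v h)).le, k5⟩

/-- **The round seven-sphere.** The group `G = S¹ × S³` is a compact connected Lie group, `S⁷` is a
compact connected smooth manifold, and `G` acts on `S⁷` by `(w, h) · (x, y) = (w x h⁻¹, y h⁻¹)`
smoothly and effectively, with cohomogeneity at least two (in fact three) and exactly two
non-principal orbits, which are both singular and different. `S⁷` has an invariant metric of
positive sectional curvature with diameter at most one, and it admits almost nonnegative sectional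
curvature. -/
theorem result :
    Setting ∧ ActionIs ∧ TwoDifferentSingularOrbits ((𝓡 1).prod (𝓡 3)) (𝓡 7) G S7 ∧ IsotropyIs ∧
      InvariantPositive (𝓡 7) G S7 ∧ AlmostNonneg (𝓡 7) S7 :=
  ⟨setting, actionIs, two, isotropyIs, invariantPositive, almostNonneg⟩

end Pool.Agent.Results.MP_9877a5_gt.RoundSevenSphere
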